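import Mathlib

set_option autoImplicit false

namespace Pool.Agent.H.MP_9d0418_gt

open Set

abbrev K : Type := ZMod 2

abbrev V : Type := (ℕ → K) × (ℕ →₀ K)

noncomputable def B : V →ₗ[K] V →ₗ[K] K :=
  (Finsupp.lsum K fun i => (LinearMap.lsmul K ((ℕ → K) →ₗ[K] K)).flip (LinearMap.proj i)).flip.compl₁₂
    (LinearMap.fst K _ _) (LinearMap.snd K _ _)

lemma B_def (v w : V) : B v w = w.2.sum fun i a => a * v.1 i := by
  simp [B, Finsupp.sum]

@[ext] structure G : Type where
  v : V
  t : K

noncomputable instance : Mul G := ⟨fun x y => ⟨x.v + y.v, x.t + y.t + B x.v y.v⟩⟩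
instance : One G := ⟨⟨0, 0⟩⟩
noncomputable instance : Inv G := ⟨fun x => ⟨-x.v, -x.t + B x.v x.v⟩⟩

@[simp] lemma mul_v (x y : G) : (x * y).v = x.v + y.v := rfl
@[simp] lemma mul_t (x y : G) : (x * y).t = x.t + y.t + B x.v y.v := rfl

noncomputable instance : Group G := Group.ofLeftAxioms
  (fun x y z => G.ext (add_assoc _ _ _) (by simp; ring))
  (fun x => G.ext (zero_add _) (by change 0 + _ + B 0 _ = _; simp))
  (fun x => G.ext (neg_add_cancel _) (by
    change -x.t + B x.v x.v + x.t + B (-x.v) x.v = 0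
    rw [map_neg, LinearMap.neg_apply]
    ring))

lemma comm_iff {x y : G} : x * y = y * x ↔ (B - B.flip) x.v y.v = 0 := by
  simp [G.ext_iff, add_comm, sub_eq_zero]

lemma inj : Function.Injective (B - B.flip) := by
  refine (injective_iff_map_eq_zero _).2 fun v h => Prod.ext (funext fun i => ?_) (Finsupp.ext fun i => ?_)
  · simpa [B_def] using LinearMap.congr_fun h (0, Finsupp.single i 1)
  · have := LinearMap.congr_fun h (Pi.single i 1, 0)
    simp only [LinearMap.sub_apply, LinearMap.flip_apply, B_def, Finsupp.sum_zero_index, zero_sub,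
      LinearMap.zero_apply, neg_eq_zero] at this
    rw [Finsupp.sum_eq_single i] at this
    · simpa using this
    · intro j _ h
      simp [h]
    · simp

theorem fin_cc (F : Set G) (hF : F.Finite) : F.centralizer.centralizer.Finite := by
  have := hF.to_subtype
  let L : F → V →ₗ[K] K := fun y => (B - B.flip) y.1.v
  have h1 : Finite (Submodule.span K (range L)) :=
    have := Module.Finite.span_of_finite K (finite_range L)
    Module.finite_of_finite K
  refine Finite.of_finite_image (f := fun g => ((B - B.flip) g.v, g.t))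
    (((toFinite (Submodule.span K (range L) : Set (V →ₗ[K] K))).prod finite_univ).subset ?_)
    fun g _ h _ e => G.ext (inj (congrArg Prod.fst e)) (congrArg Prod.snd e)
  rintro _ ⟨g, hg, rfl⟩
  refine ⟨mem_span_of_iInf_ker_le_ker fun v hv => ?_, trivial⟩
  exact comm_iff.1 (hg ⟨v, 0⟩ fun y hy => comm_iff.2
    ((Submodule.mem_iInf _).1 hv ⟨y, hy⟩)).symm

def ι (f : ℕ → K) : G := ⟨(f, 0), 0⟩

lemma ι_inj : Function.Injective ι := fun _ _ h => congrArg (fun g : G => g.v.1) h

lemma ι_comm {f : ℕ → K} {x y : G} (e : x.v.2 = y.v.2) (h : x * ι f = ι f * x) :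
    y * ι f = ι f * y := by
  rw [comm_iff] at h ⊢
  simpa [ι, B_def, e] using h

instance : Uncountable (ℕ → K) :=
  Cardinal.aleph0_lt_mk_iff.1 (by simp [Cardinal.aleph0_lt_continuum])

end Pool.Agent.H.MP_9d0418_gt
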